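import Pool.Agent.helper43.NE.BSNeg
import Pool.Agent.helper43.NE.BSPos
import Pool.Agent.helper43.NE.BSZero
import Pool.Agent.helper43.NE.BSEq

/-!
# MP_5c1f29_al: the Baumslag-Solitar groups with property (N)

For all integers `m`, `n`, the one-relator group `BS(m, n) = ⟨t, a | t a^m t⁻¹ = a^n⟩` has property
(N) if and only if one of the following holds:
* `m n = 0` and `|m + n|` is one of `0, 1, 2, 3, 4, 6`;
* `m n ≠ 0` and `|m| = |n|`;
* one of `|m|`, `|n|` is `1` and the other is a prime.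
-/

set_option autoImplicit false

namespace Pool.Agent.Results.MP_5c1f29_al.BaumslagSolitar

open Pool.Agent.NE

/-! ### isomorphisms -/

theorem min_ta {m n : ℤ} {G : Type} [Group G] (e : BS m n ≃* G)
    (h : ∀ (k : ℕ) (g : Fin k → G), Generates g → 2 ≤ k) : IsMinGen (ta m n) :=
  ⟨ta_generates, fun k g hg => h k (fun i => e (g i)) ((generates_map e g).2 hg)⟩

/-- `BS(0, n) ≃ BS(0, |n|)` -/
theorem zero_iso (n : ℤ) : Nonempty (BS 0 n ≃* BS 0 (n.natAbs : ℤ)) := by
  rcases Int.natAbs_eq n with h | h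
  · rw [← h]; exact ⟨MulEquiv.refl _⟩
  · have h1 : (n.natAbs : ℤ) = -n := by omega
    rw [h1]
    have := bsNeg 0 n
    rw [neg_zero] at this
    exact ⟨this⟩

/-- the case `m n = 0` -/
theorem zero_iso' (m n : ℤ) (h : m * n = 0) :
    Nonempty (BS m n ≃* BS 0 ((m + n).natAbs : ℤ)) := by
  rcases mul_eq_zero.1 h with rfl | rfl
  · rw [zero_add]; exact zero_iso n
  · rw [add_zero]
    obtain ⟨e⟩ := zero_iso m
    exact ⟨(bsSwap m 0).trans e⟩

/-- the case `|m| = |n| ≥ 2` -/
theorem eq_pos (m n : ℤ) (h : m.natAbs = n.natAbs) (hm : 2 ≤ m.natAbs) : PropertyN (BS m n) := by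
  have key : ∀ (M : ℕ) (n : ℤ), 2 ≤ M → n.natAbs = M → PropertyN (BS M n) := by
    intro M n hM hn
    rcases Int.natAbs_eq n with h1 | h1
    · have := bs_eq_pos (M := M) (e := 1) (Or.inl rfl) hM
      rw [one_mul] at this
      rw [h1, hn]; exact this
    · have := bs_eq_pos (M := M) (e := -1) (Or.inr rfl) hM
      rw [neg_one_mul] at this
      rw [h1, hn]; exact this
  rcases Int.natAbs_eq m with h1 | h1
  · rw [h1]; exact key _ _ hm h.symm
  · have h2 : -m = (m.natAbs : ℤ) := by omega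
    rw [propertyN_iff (bsNeg m n), h2]
    exact key _ _ hm (by rw [Int.natAbs_neg]; exact h.symm)

/-- the case `|m| = 1` -/
theorem one_iff (m n : ℤ) (hm : m.natAbs = 1) (hn : n ≠ 0) :
    PropertyN (BS m n) ↔ (n.natAbs = 1 ∨ n.natAbs.Prime) := by
  have key : ∀ n : ℤ, n ≠ 0 → (PropertyN (BS 1 n) ↔ (n.natAbs = 1 ∨ n.natAbs.Prime)) := by
    intro n hn
    constructor
    · intro hN
      by_contra hc
      push Not at hc
      have h2 : 2 ≤ n.natAbs := by omega
      obtain ⟨k, l, hk, hl, hkl⟩ : ∃ k l : ℕ, 1 < k ∧ 1 < l ∧ n.natAbs = k * l := by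
        refine ⟨n.natAbs.minFac, n.natAbs / n.natAbs.minFac,
          (Nat.minFac_prime hc.1).one_lt, ?_, (Nat.mul_div_cancel' (Nat.minFac_dvd _)).symm⟩
        have h3 := (Nat.minFac_prime hc.1).pos
        have h4 : n.natAbs.minFac < n.natAbs := (Nat.not_prime_iff_minFac_lt h2).1 hc.2
        have h5 := Nat.mul_div_cancel' (Nat.minFac_dvd n.natAbs)
        by_contra h6
        have h7 : n.natAbs / n.natAbs.minFac ≤ 1 := by omega
        have h8 : n.natAbs.minFac * (n.natAbs / n.natAbs.minFac) ≤ n.natAbs.minFac * 1 :=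
          Nat.mul_le_mul_left _ h7
        omega
      rcases Int.natAbs_eq n with h1 | h1
      · refine bs_one_neg n k l (by rw [h1, hkl]; push_cast; ring) ?_ ?_ hN
        · rw [Nat.abs_cast]; exact_mod_cast hk
        · rw [Nat.abs_cast]; exact_mod_cast hl
      · refine bs_one_neg n (-k) l (by rw [h1, hkl]; push_cast; ring) ?_ ?_ hN
        · rw [abs_neg, Nat.abs_cast]; exact_mod_cast hk
        · rw [Nat.abs_cast]; exact_mod_cast hl
    · intro h
      exact bs_one_pos h.symm
  rcases Int.natAbs_eq m with h1 | h1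
  · have : m = 1 := by omega
    subst this
    exact key n hn
  · have : m = -1 := by omega
    subst this
    rw [propertyN_iff (bsNeg (-1) n), neg_neg, key (-n) (by omega), Int.natAbs_neg]

theorem not_dvd_one (m : ℤ) (hm : 2 ≤ m.natAbs) : ¬ m ∣ 1 := by
  intro h
  have := Int.natAbs_dvd_natAbs.2 h
  rw [Int.natAbs_one, Nat.dvd_one] at this
  omega

/-- **Classification of the Baumslag-Solitar groups with property (N).** -/
theorem result (m n : ℤ) :
    (¬ (m * n = 0 ∧ (m + n).natAbs = 1) → IsMinGen (ta m n)) ∧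
    (PropertyN (BS m n) ↔
      (m * n = 0 ∧ (m + n).natAbs ∈ ({0, 1, 2, 3, 4, 6} : Set ℕ)) ∨
      (m * n ≠ 0 ∧ (m.natAbs = n.natAbs ∨ (m.natAbs = 1 ∧ n.natAbs.Prime) ∨
        (n.natAbs = 1 ∧ m.natAbs.Prime)))) := by
  by_cases h0 : m * n = 0
  · obtain ⟨e⟩ := zero_iso' m n h0
    constructor
    · intro h
      exact min_ta e (q_rank _ fun h1 => h ⟨h0, h1⟩)
    · rw [propertyN_iff e, q_iff]
      constructor
      · intro h; exact Or.inl ⟨h0, h⟩
      · rintro (h | h)
        · exact h.2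
        · exact absurd h0 h.1
  · have hm : m ≠ 0 := fun h => h0 (by rw [h, zero_mul])
    have hn : n ≠ 0 := fun h => h0 (by rw [h, mul_zero])
    refine ⟨fun _ => ta_isMinGen m n hm hn, ?_⟩
    have hm' : m.natAbs ≠ 0 := Int.natAbs_ne_zero.2 hm
    have hn' : n.natAbs ≠ 0 := Int.natAbs_ne_zero.2 hn
    have e1 : (m * n = 0 ∧ (m + n).natAbs ∈ ({0, 1, 2, 3, 4, 6} : Set ℕ)) ↔ False :=
      ⟨fun h => h0 h.1, False.elim⟩
    rw [e1, false_or, and_iff_right h0]
    by_cases hm1 : m.natAbs = 1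
    · rw [one_iff m n hm1 hn, hm1]
      constructor
      · rintro (h | h)
        · exact Or.inl h.symm
        · exact Or.inr (Or.inl ⟨rfl, h⟩)
      · rintro (h | h | h)
        · exact Or.inl h.symm
        · exact Or.inr h.2
        · exact absurd h.2 (by decide)
    by_cases hn1 : n.natAbs = 1
    · rw [propertyN_iff (bsSwap m n), one_iff n m hn1 hm, hn1]
      constructor
      · rintro (h | h)
        · exact absurd h hm1
        · exact Or.inr (Or.inr ⟨rfl, h⟩)
      · rintro (h | h | h)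
        · exact Or.inl h
        · exact absurd h.1 hm1
        · exact Or.inr h.2
    have hm2 : 2 ≤ m.natAbs := by omega
    have hn2 : 2 ≤ n.natAbs := by omega
    constructor
    · intro hN
      left
      by_contra hne
      by_cases h1 : n ∣ m
      · have h2 : ¬ m ∣ n := fun h2 => hne (Nat.dvd_antisymm (Int.natAbs_dvd_natAbs.2 h2)
          (Int.natAbs_dvd_natAbs.2 h1))
        exact bs_neg n m hn hm (not_dvd_one n hn2) h2 ((propertyN_iff (bsSwap m n)).1 hN)
      · exact bs_neg m n hm hn (not_dvd_one m hm2) h1 hN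
    · rintro (h | h | h)
      · exact eq_pos m n h hm2
      · exact absurd h.1 hm1
      · exact absurd h.1 hn1

end Pool.Agent.Results.MP_5c1f29_al.BaumslagSolitar
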