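import Pool.Agent.helper43.NE.Sub
import Pool.Agent.helper43.NE.Laurent

/-!
# MP_5c1f29_al: the one-relator groups `⟨x_1, …, x_n, b | b = v(x_1, …, x_n, b^k)⟩`

Let `v` be a word in `x_1, …, x_n, c` which lies in the normal closure of `c`, and let `α` be its Fox
derivative `∂v/∂c`, evaluated at `x_i = T^{φ_i}`, `c = 1`. If `α` is neither `0` nor `± T^j` and
`k α` is not of the form `2 ± 2 T^j`, then `(x_1, …, x_n, b)` and `(x_1, …, x_n, b^k)` are minimal
generating tuples which are not Nielsen equivalent.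
-/

set_option autoImplicit false

open LaurentPolynomial

namespace Pool.Agent.Results.MP_5c1f29_al.PowerFox

open Pool.Agent.NE

variable {n : ℕ}

/-- The unit `T^j` of the ring of Laurent polynomials. -/
noncomputable def Tu (j : ℤ) : (ℤ[T;T⁻¹])ˣ :=
  ⟨T j, T (-j), by rw [← T_add, add_neg_cancel, T_zero], by rw [← T_add, neg_add_cancel, T_zero]⟩

/-- The Fox derivative of the word `v` with respect to its last letter, evaluated at
`x_i = T^{φ_i}` and at `1` for the last letter. -/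
noncomputable def lastFox (φ : Fin n → ℤ) (v : FreeGroup (Fin (n + 1))) : ℤ[T;T⁻¹] :=
  fox (ext1 fun i => Tu (φ i)) v (Fin.last n)

/-- `Exceptional k α`: `α` is `0` or `± T^j`, or `k α` is `2 ± 2 T^j`. -/
def Exceptional (k : ℤ) (α : ℤ[T;T⁻¹]) : Prop :=
  α = 0 ∨ (∃ j : ℤ, α = T j ∨ α = -T j) ∨
    ∃ j : ℤ, k • α = 2 • 1 + (2 : ℤ) • T j ∨ k • α = 2 • 1 - (2 : ℤ) • T j

/-- The word `b^k`. -/
def bpow (n : ℕ) (k : ℤ) : FreeGroup (Fin (n + 1)) := FreeGroup.of (Fin.last n) ^ k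

theorem kill_bpow (k : ℤ) : killLast (bpow n k) = 1 := by
  unfold killLast bpow
  rw [map_zpow, FreeGroup.lift_apply_of, Fin.snoc_last, one_zpow]

theorem fox_bpow {B : Type} [CommRing B] (ρ : Fin n → Bˣ) (k : ℤ) :
    fox (ext1 ρ) (bpow n k) (Fin.last n) = (k : B) := by
  let f : Multiplicative ℤ →* Aff B (Fin (n + 1) → B) :=
    { toFun := fun j => ⟨1, ((Multiplicative.toAdd j : ℤ) : B) • Pi.single (Fin.last n) 1⟩
      map_one' := Aff.ext rfl (by simp)
      map_mul' := by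
        intro x y
        refine Aff.ext (by simp) ?_
        simp [add_smul] }
  have h1 : foxHom (ext1 ρ) (FreeGroup.of (Fin.last n)) = f (Multiplicative.ofAdd 1) := by
    unfold foxHom ext1
    rw [FreeGroup.lift_apply_of, Fin.snoc_last]
    exact Aff.ext rfl (by simp [f])
  unfold fox bpow
  rw [map_zpow, h1, ← map_zpow, ← ofAdd_zsmul]
  simp [f]

/-- the quotient ring -/
abbrev Rk (k : ℤ) (α : ℤ[T;T⁻¹]) : Type := ℤ[T;T⁻¹] ⧸ Ideal.span {k • α - 1}

theorem not_dvd (k : ℤ) (hk : 2 ≤ |k|) (α : ℤ[T;T⁻¹]) (hα : ¬ Exceptional k α) (j e : ℤ)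
    (he : e = 1 ∨ e = -1) : ¬ (k • α - 1) ∣ (k • 1 - e • T j) := by
  rintro ⟨Q, hQ⟩
  refine hα (laurent_key k hk α (-(e • Q)) j e he ?_)
  have h1 : (k • α - 1) * (-(e • Q)) = -(e • ((k • α - 1) * Q)) := by
    rw [mul_neg, mul_smul_comm]
  rw [h1, ← hQ]
  rcases he with rfl | rfl
  · rw [one_smul, one_smul, one_mul]; ring
  · rw [neg_smul, one_smul, neg_smul, one_smul, neg_one_mul, neg_smul]; ring

theorem nontriv (k : ℤ) (hk : 2 ≤ |k|) (α : ℤ[T;T⁻¹]) (hα : ¬ Exceptional k α) :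
    Nontrivial (Rk k α) := by
  apply Ideal.Quotient.nontrivial_iff.2
  intro h
  have h1 : (1 : ℤ[T;T⁻¹]) ∈ Ideal.span {k • α - 1} := by rw [h]; trivial
  rw [Ideal.mem_span_singleton] at h1
  exact not_dvd k hk α hα 0 1 (Or.inl rfl) (h1.trans (one_dvd _))

/-- **Theorem.** -/
theorem result (n : ℕ) (v : FreeGroup (Fin (n + 1))) (hv : killLast v = 1) (k : ℤ) (hk : 2 ≤ |k|)
    (φ : Fin n → ℤ) (hα : ¬ Exceptional k (lastFox φ v)) :
    IsMinGen (stup v (bpow n k) (FreeGroup.of (Fin.last n))) ∧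
    IsMinGen (stup v (bpow n k) (bpow n k)) ∧
    ¬ NielsenEquiv (stup v (bpow n k) (FreeGroup.of (Fin.last n)))
      (stup v (bpow n k) (bpow n k)) ∧
    ¬ PropertyN (SubGroup v (bpow n k)) := by
  set α := lastFox φ v with hαdef
  have hnt := nontriv k hk α hα
  let f : ℤ[T;T⁻¹] →+* Rk k α := Ideal.Quotient.mk _
  let ρ : Fin n → (Rk k α)ˣ := fun i => Units.map f.toMonoidHom (Tu (φ i))
  have hfv : fox (ext1 ρ) v (Fin.last n) = f α := fox_ext1_map f _ v _
  have hfu : fox (ext1 ρ) (bpow n k) (Fin.last n) = (k : Rk k α) := fox_bpow ρ k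
  have hka : (k : Rk k α) * f α = 1 := by
    have h1 : f (k • α - 1) = 0 :=
      Ideal.Quotient.eq_zero_iff_mem.2 (Ideal.subset_span rfl)
    rw [map_sub, map_zsmul, map_one, sub_eq_zero, zsmul_eq_mul] at h1
    exact h1
  have h : fox (ext1 ρ) v (Fin.last n) * fox (ext1 ρ) (bpow n k) (Fin.last n) = 1 := by
    rw [hfv, hfu, mul_comm]; exact hka
  have hrank := sub_rank ρ v (bpow n k) hv (kill_bpow k) h
  have hne : ¬ NielsenEquiv (stup v (bpow n k) (FreeGroup.of (Fin.last n)))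
      (stup v (bpow n k) (bpow n k)) := by
    intro he
    obtain ⟨x, hx, hxk⟩ := sub_criterion ρ v (bpow n k) hv (kill_bpow k) h he
    rw [hfu] at hxk
    have hform : ∃ e j : ℤ, (e = 1 ∨ e = -1) ∧ (x : Rk k α) = f (e • T j) := by
      clear hxk
      induction hx using Subgroup.closure_induction with
      | mem x hx =>
        rcases hx with rfl | ⟨i, rfl⟩
        · refine ⟨-1, 0, Or.inr rfl, ?_⟩
          rw [T_zero, neg_smul, one_smul, map_neg, map_one]; rfl
        · refine ⟨1, φ i, Or.inl rfl, ?_⟩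
          rw [one_smul]; rfl
      | one =>
        refine ⟨1, 0, Or.inl rfl, ?_⟩
        rw [T_zero, one_smul, map_one]; rfl
      | mul x y _ _ ihx ihy =>
        obtain ⟨e, j, he, hx⟩ := ihx
        obtain ⟨e', j', he', hy⟩ := ihy
        refine ⟨e * e', j + j', ?_, ?_⟩
        · rcases he with rfl | rfl <;> rcases he' with rfl | rfl <;> simp
        · rw [Units.val_mul, hx, hy, ← map_mul, smul_mul_smul_comm, ← T_add]
      | inv x _ ih =>
        obtain ⟨e, j, he, hx⟩ := ih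
        refine ⟨e, -j, he, ?_⟩
        have h2 : (x : Rk k α) * f (e • T (-j)) = 1 := by
          rw [hx, ← map_mul, smul_mul_smul_comm, ← T_add, add_neg_cancel, T_zero]
          have : e * e = 1 := by rcases he with rfl | rfl <;> norm_num
          rw [this, one_smul, map_one]
        exact Units.inv_eq_of_mul_eq_one_right h2
    obtain ⟨e, j, he, hx⟩ := hform
    rw [hx] at hxk
    have h3 : f (k • 1 - e • T j) = 0 := by
      rw [map_sub, ← hxk, map_zsmul, map_one, zsmul_one, sub_self]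
    have h4 := Ideal.Quotient.eq_zero_iff_mem.1 h3
    rw [Ideal.mem_span_singleton] at h4
    exact not_dvd k hk α hα j e he h4
  have hm1 : IsMinGen (stup v (bpow n k) (FreeGroup.of (Fin.last n))) :=
    ⟨sub_gen_b v _, hrank⟩
  have hm2 : IsMinGen (stup v (bpow n k) (bpow n k)) := ⟨sub_gen_u v _, hrank⟩
  exact ⟨hm1, hm2, hne, fun hN => hne (hN _ _ _ hm1 hm2)⟩

end Pool.Agent.Results.MP_5c1f29_al.PowerFox
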