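import Pool.Agent.helper99.WN.All

/-!
# MP_5c1f29_al: property (N) for one-relator groups whose relator is a long power

Let `k ≥ 1`, let `w` be an element of the free group on `x_1, ..., x_k` which is not a proper power,
and let `n ≥ 12 k`. Then `(x_1, ..., x_k)` is a minimal generating tuple of
`G = ⟨x_1, ..., x_k | w ^ n⟩`, and all minimal generating tuples of `G` are Nielsen equivalent if and
only if `w` is not primitive.
-/

set_option autoImplicit false

namespace Pool.Agent.Results.MP_5c1f29_al.PowerRelator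

open Pool.Agent.NE

/-- **Property (N) for the one-relator groups `⟨x_1, ..., x_k | w ^ n⟩`, `n ≥ 12 k`.** -/
theorem result (k : ℕ) (hk : 1 ≤ k) (w : FreeGroup (Fin k))
    (hw : ∀ (v : FreeGroup (Fin k)) (m : ℕ), 2 ≤ m → w ≠ v ^ m) (n : ℕ) (hn : 12 * k ≤ n) :
    IsMinGen (fun i : Fin k =>
      (PresentedGroup.of i : PresentedGroup ({w ^ n} : Set (FreeGroup (Fin k))))) ∧
    (PropertyN (PresentedGroup ({w ^ n} : Set (FreeGroup (Fin k)))) ↔
      ¬ ∃ (φ : FreeGroup (Fin k) ≃* FreeGroup (Fin k)) (i : Fin k), φ (FreeGroup.of i) = w) :=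
  Pool.Agent.WN.final Pool.Agent.WN.allRows (Pool.Agent.WN.WA Pool.Agent.WN.WP)
    Pool.Agent.WN.allN1 Pool.Agent.WN.AU (Pool.Agent.WN.K1 (Pool.Agent.WN.WA Pool.Agent.WN.WP))
    (Pool.Agent.WN.CV Pool.Agent.WN.DG Pool.Agent.WN.DT Pool.Agent.WN.NU) hk w hw n hn

end Pool.Agent.Results.MP_5c1f29_al.PowerRelator
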